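import Pool.Agent.DPL.StmtsC

/-!
ST2: the values of `wf` of `L2` for the star (squad DPL, part C).
-/

set_option autoImplicit false

namespace Pool.Agent.DPL.H81

open Finset Polynomial Pool.Agent.DPS

/-- `dl` is antitone. -/
theorem dl_anti (N K : ℕ) {s s' : ℕ} (h : s ≤ s') : dl N K s' ≤ dl N K s := by
  unfold dl
  refine div_le_div_of_nonneg_right ?_ (by positivity)
  exact_mod_cast Nat.choose_le_choose (N - K) (by omega : N - s' ≤ N - s)

theorem st2 (hstv : STVStmt) : ST2Stmt := by
  intro n k r lam hn hr hrk hlam hle T R hT hR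
  have hTk : T.card ≤ k := by omega
  have hkn : k ≤ n := by omega
  have hRn : R.card ≤ n - k := by omega
  obtain ⟨hwf, hdg, hip⟩ := hstv n k T R hTk hkn hRn
  -- the sum of the `pc` is `C(N,K)`
  have hone : ∑ u ∈ range ((R \ T).card + 1),
      (pc (n - T.card) (k - T.card) (R \ T).card u : ℝ) = ((n - T.card).choose (k - T.card) : ℝ) := by
    have h1 := (hstv n k T R hTk hkn hRn).1 (fun _ => 1)
    have h2 : wf (fun _ => (1 : ℝ)) (star k T) R = ip (star k T) (star k T) := by
      unfold wf ip DPS.star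
      refine Finset.sum_congr rfl fun F _ => ?_
      split_ifs <;> simp
    rw [← hip, ← h2, h1]
    simp
  have hzero : (pc (n - T.card) (k - T.card) (R \ T).card 0 : ℝ) =
      ((n - T.card).choose (k - T.card) : ℝ) * dl (n - T.card) (k - T.card) (R \ T).card := by
    have h3 : ((n - T.card).choose (k - T.card) : ℝ) ≠ 0 := by
      have : 0 < (n - T.card).choose (k - T.card) := Nat.choose_pos (by omega)
      positivity
    unfold dl pc
    rw [mul_div_cancel₀ _ h3]
    simp
  rw [hT] at hwf hdg hip hone hzero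
  set s := (R \ T).card with hs
  have hsr : s ≤ r := by
    rw [hs, ← hR]
    exact Finset.card_le_card Finset.sdiff_subset
  set C := ((n - 2).choose (k - 2) : ℝ) with hC
  have hCpos : 0 < C := by
    have : 0 < (n - 2).choose (k - 2) := Nat.choose_pos (by omega)
    rw [hC]
    positivity
  set κ := max (lam - dl (n - 2) (k - 2) r) 0 * C / ((n - 2 - r).choose (k - 2) : ℝ) with hκ
  have hsum : ∑ u ∈ range (s + 1), (pc (n - 2) (k - 2) s u : ℝ) * L2 r lam κ u =
      C * dl (n - 2) (k - 2) s - lam * C + (if s = r then (pc (n - 2) (k - 2) r r : ℝ) * κ else 0) := by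
    have e1 : ∀ u ∈ range (s + 1), (pc (n - 2) (k - 2) s u : ℝ) * L2 r lam κ u =
        (if u = 0 then (pc (n - 2) (k - 2) s u : ℝ) else 0) - lam * (pc (n - 2) (k - 2) s u : ℝ) +
          (if u = r then (pc (n - 2) (k - 2) s u : ℝ) * κ else 0) := by
      intro u _
      unfold L2
      split_ifs <;> ring
    rw [Finset.sum_congr rfl e1, Finset.sum_add_distrib, Finset.sum_sub_distrib,
      ← Finset.mul_sum, hone, Finset.sum_ite_eq', Finset.sum_ite_eq', if_pos (by simp), hzero]
    congr 1
    by_cases h : s = r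
    · rw [if_pos h, if_pos (by rw [Finset.mem_range]; omega), h]
    · rw [if_neg h, if_neg (by rw [Finset.mem_range]; omega)]
  rw [hwf, hsum, hdg, hip]
  by_cases h : s = r
  · rw [if_pos h, h]
    have hpc : (pc (n - 2) (k - 2) r r : ℝ) = ((n - 2 - r).choose (k - 2) : ℝ) := by
      unfold pc
      rw [Nat.choose_self, one_mul]
      congr 1
      have : n - 2 - (k - 2) - r = (n - 2 - r) - (k - 2) := by omega
      rw [this]
      exact Nat.choose_symm (by omega)
    have hne : ((n - 2 - r).choose (k - 2) : ℝ) ≠ 0 := by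
      have : 0 < (n - 2 - r).choose (k - 2) := Nat.choose_pos (by omega)
      positivity
    rw [hpc, hκ, mul_div_cancel₀ _ hne]
    rcases le_total lam (dl (n - 2) (k - 2) r) with h1 | h1
    · rw [max_eq_right (by linarith : lam - dl (n - 2) (k - 2) r ≤ 0)]
      have h2 : 0 ≤ C * (dl (n - 2) (k - 2) r - lam) :=
        mul_nonneg hCpos.le (by linarith)
      rw [max_eq_left (by linarith : 0 ≤ C * dl (n - 2) (k - 2) r - lam * C)]
      ring
    · rw [max_eq_left (by linarith : 0 ≤ lam - dl (n - 2) (k - 2) r)]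
      have h2 : 0 ≤ C * (lam - dl (n - 2) (k - 2) r) :=
        mul_nonneg hCpos.le (by linarith)
      rw [max_eq_right (by linarith : C * dl (n - 2) (k - 2) r - lam * C ≤ 0)]
      ring
  · rw [if_neg h, add_zero]
    have h1 : lam ≤ dl (n - 2) (k - 2) s := hle.trans (dl_anti _ _ (by omega))
    have h2 : 0 ≤ C * (dl (n - 2) (k - 2) s - lam) := mul_nonneg hCpos.le (by linarith)
    rw [max_eq_left (by linarith : 0 ≤ C * dl (n - 2) (k - 2) s - lam * C)]

end Pool.Agent.DPL.H81
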