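import Pool.Agent.DPL.StmtsC

/-!
WEL: the function `wf` of `L2` on a level (squad DPL, part C).
-/

set_option autoImplicit false

namespace Pool.Agent.DPL.H81

open Finset Polynomial Pool.Agent.DPS

theorem wf_L2 {n k r : ℕ} (lam κ : ℝ) (g : KS n k → ℝ) (R : Finset (Fin n))
    (hR : R.card = r) :
    wf (L2 r lam κ) g R = dg g R - lam * dg g ∅ +
      κ * ∑ F : KS n k, if Disjoint R F.1 then g F else 0 := by
  unfold wf dg
  rw [Finset.mul_sum, Finset.mul_sum, ← Finset.sum_sub_distrib, ← Finset.sum_add_distrib]
  refine Finset.sum_congr rfl fun F _ => ?_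
  have h0 : (R \ F.1).card = 0 ↔ R ⊆ F.1 := by
    rw [Finset.card_eq_zero, Finset.sdiff_eq_empty_iff_subset]
  have h1 : (R \ F.1).card = r ↔ Disjoint R F.1 := by
    rw [← hR]
    constructor
    · intro h
      have : R \ F.1 = R := Finset.eq_of_subset_of_card_le Finset.sdiff_subset (by rw [h])
      rwa [Finset.sdiff_eq_self_iff_disjoint] at this
    · intro h
      rw [Finset.sdiff_eq_self_of_disjoint h]
  have h2 : (∅ : Finset (Fin n)) ⊆ F.1 := Finset.empty_subset _
  unfold L2
  simp only [h0, h1, h2, if_true]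
  split_ifs <;> ring

theorem wel (hdge : DGEStmt) (htau : TAUStmt) (hdis : DISStmt) : WELStmt := by
  intro n k l r hn hr hrk hl hlk lam κ f R hR
  have h0 : dg (E n k l f) ∅ = 0 := hdge n k l hn hlk f ∅ (by rw [Finset.card_empty]; omega)
  rw [wf_L2 lam κ _ R hR, h0, mul_zero, sub_zero]
  split_ifs with hlr
  · have ht := htau n k l r hn hlr hrk f R hR
    have hD : ((k - l).descFactorial (r - l) : ℝ) ≠ 0 := by
      have : 0 < (k - l).descFactorial (r - l) := Nat.descFactorial_pos.2 (by omega)
      positivity
    have hS : (∑ F : KS n k, if Disjoint R F.1 then E n k l f F else 0) =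
        (-1 : ℝ) ^ l * ((n - k - l).descFactorial (r - l) : ℝ) * dg (E n k l f) R /
          ((k - l).descFactorial (r - l) : ℝ) := by
      rw [eq_div_iff hD, mul_comm]
      exact ht
    rw [hS]
    unfold ta
    ring
  · have hz : dg (E n k l f) R = 0 := hdge n k l hn hlk f R (by omega)
    have hS : (∑ F : KS n k, if Disjoint R F.1 then E n k l f F else 0) = 0 := by
      rw [hdis n k (E n k l f) R]
      refine Finset.sum_eq_zero fun j hj => ?_
      rw [Finset.mem_range] at hj
      rw [Finset.sum_eq_zero, mul_zero]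
      intro J hJ
      rw [Finset.mem_powersetCard] at hJ
      exact hdge n k l hn hlk f J (by omega)
    rw [hz, hS, mul_zero, add_zero]

end Pool.Agent.DPL.H81
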